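import Pool.Agent.J6H84.DG.Stm

/-!
# Module SYL: orders of permutation groups with small point stabilizers
-/

set_option autoImplicit false

namespace Pool.Agent.J6H3.DG.Syl

open Pool.Agent.J6H84.DG

/-- the order of a finite group acting with trivial stabilizers divides the number of points -/
theorem card_dvd_of_free (S X : Type) [Group S] [MulAction S X] [Finite S] [Finite X]
    (h : ∀ x : X, MulAction.stabilizer S x = ⊥) : Nat.card S ∣ Nat.card X := by
  classical
  rw [Nat.card_congr (MulAction.selfEquivSigmaOrbitsQuotientStabilizer S X)]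
  have : Fintype (Quotient (MulAction.orbitRel S X)) := Fintype.ofFinite _
  rw [Nat.card_sigma]
  apply Finset.dvd_sum
  intro ω _
  have h1 : Nat.card (S ⧸ MulAction.stabilizer S (Quotient.out ω)) = Nat.card S := by
    have h2 : (MulAction.stabilizer S (Quotient.out ω)).index = Nat.card S := by
      rw [h, Subgroup.index_bot]
    exact h2
  exact h1 ▸ dvd_rfl

theorem main : S_Syl := by
  classical
  intro X _ _ n m hn hm hX G hG
  rw [Nat.dvd_iff_prime_pow_dvd_dvd]
  intro l j hl hlj
  have : Fact l.Prime := ⟨hl⟩
  obtain ⟨K, hK⟩ := Sylow.exists_subgroup_card_pow_prime l hlj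
  set S : Subgroup (Equiv.Perm X) := K.map G.subtype with hS
  have hSG : S ≤ G := Subgroup.map_subtype_le K
  have hScard : Nat.card S = l ^ j := by
    rw [← hK]
    exact Subgroup.card_map_of_injective G.subtype_injective
  by_cases hln : l ∣ n
  · -- free action
    have hcop : Nat.Coprime l (n - 1) := by
      rw [hl.coprime_iff_not_dvd]
      intro h
      have h1 : l ∣ n - (n - 1) := Nat.dvd_sub hln h
      have h2 : n - (n - 1) = 1 := by omega
      rw [h2] at h1
      exact hl.one_lt.ne' (Nat.dvd_one.1 h1)
    have hfree : ∀ x : X, MulAction.stabilizer S x = ⊥ := by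
      intro x
      have h1 : Nat.card ((MulAction.stabilizer S x).map S.subtype) ∣ n - 1 := by
        apply hG _ x
        · exact (Subgroup.map_subtype_le _).trans hSG
        · rintro σ ⟨g, hg, rfl⟩
          exact MulAction.mem_stabilizer_iff.1 hg
      have h2 : Nat.card ((MulAction.stabilizer S x).map S.subtype) = Nat.card (MulAction.stabilizer S x) :=
        Subgroup.card_map_of_injective S.subtype_injective
      have h3 : Nat.card (MulAction.stabilizer S x) ∣ l ^ j := by
        rw [← hScard]
        exact Subgroup.card_subgroup_dvd_card _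
      rw [h2] at h1
      have h4 : Nat.card (MulAction.stabilizer S x) = 1 :=
        Nat.eq_one_of_dvd_coprimes (Nat.Coprime.pow_left j hcop) h3 h1
      exact Subgroup.card_eq_one.1 h4
    have h5 := card_dvd_of_free S X hfree
    rw [hScard, Nat.card_eq_fintype_card, hX] at h5
    exact h5.mul_right _
  · have hp : IsPGroup l S := IsPGroup.of_card hScard
    have hndvd : ¬ l ∣ Nat.card X := by
      rw [Nat.card_eq_fintype_card, hX]
      intro h
      exact hln (hl.dvd_of_dvd_pow h)
    obtain ⟨x, hx⟩ := hp.nonempty_fixed_point_of_prime_not_dvd_card X hndvd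
    have h1 : Nat.card S ∣ n - 1 := by
      apply hG S x hSG
      intro σ hσ
      exact hx ⟨σ, hσ⟩
    rw [hScard] at h1
    exact h1.mul_left _

end Pool.Agent.J6H3.DG.Syl
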